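import Pool.Agent.H88.Slater9
import Pool.Agent.L11H48.Q11
import Pool.Agent.Slater63.All

namespace Pool.Agent.Results.MP_77a7aa_co.AllButTen

open Pool.Agent.H88

/-- For every `n ≥ 9` other than `n = 10` the hypercube `Q_n` has a Hamiltonian path in which any two
consecutive flipped coordinates differ by exactly one. -/
theorem result : ∀ n : ℕ, 9 ≤ n → n ≠ 10 → HasLocalHamPath n := by
  intro n h9 h10
  by_cases h12 : 12 ≤ n
  · exact Pool.Agent.Slater63.ge_twelve n h12
  · have h : n = 9 ∨ n = 11 := by omega
    rcases h with rfl | rfl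
    · exact hasLocal_of_list 9 flips9 nine_len nine_lt nine_step (by norm_num) nine_nodup
    · exact Pool.Agent.L11H48.eleven

end Pool.Agent.Results.MP_77a7aa_co.AllButTen
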